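import Pool.Agent.H36.LX.Stm

/-! LX-NUM (helper33), adapted from Pool/Agent/H36/LC/T/NUM.lean (helper1) -/

set_option autoImplicit false

open Finset Filter Topology
open scoped Classical

namespace Pool.Agent.H36.LX.T

open Pool.Agent.H36.LC Pool.Agent.H36.BK Pool.Agent.H36.BK.LW Pool.Agent.H13R3.WB
  Pool.Agent.H931R3.Bal

namespace NumAux

theorem clu_le (l : ℕ) (K ε a L : ℝ) (hε : 0 < ε) (ha : 1 ≤ a)
    (hL : a = Real.exp (L / 6)) (hεa' : 1 / ε = a ^ 6) (h1 : a ≤ 2 ^ l)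
    (h2 : (2 : ℝ) ^ l ≤ 2 * a) (hL0 : 0 ≤ L) :
    clu2 l K ε ≤ Real.exp (10200 * a + 2100 * a * L + 3 + L + 1570800 * K ^ 2 * a) := by
  have hεa : 1 / ε ≤ a ^ 6 := hεa'.le
  have ha0 : 0 < a := by linarith
  have hp2 : (0 : ℝ) < 2 ^ l := by positivity
  have height : (8 : ℝ) ^ l = 2 ^ l * 2 ^ l * 2 ^ l := by
    rw [← mul_pow, ← mul_pow]; norm_num
  have h32 : (32 : ℝ) ^ l = 2 ^ l * 2 ^ l * 2 ^ l * 2 ^ l * 2 ^ l := by
    rw [← mul_pow, ← mul_pow, ← mul_pow, ← mul_pow]; norm_num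
  have h8a : (8 : ℝ) ^ l ≤ 8 * a ^ 3 := by
    rw [height]
    calc (2 : ℝ) ^ l * 2 ^ l * 2 ^ l ≤ (2 * a) * (2 * a) * (2 * a) := by gcongr
      _ = 8 * a ^ 3 := by ring
  have h32a : a ^ 5 ≤ (32 : ℝ) ^ l := by
    rw [h32]
    calc a ^ 5 = a * a * a * a * a := by ring
      _ ≤ 2 ^ l * 2 ^ l * 2 ^ l * 2 ^ l * 2 ^ l := by gcongr
  have h8p : (0 : ℝ) < 8 ^ l := by positivity
  have ha6L : a ^ 6 = Real.exp L := by
    rw [hL, ← Real.exp_nat_mul]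
    congr 1
    push_cast
    ring
  -- the base
  have hbase : 2 * (8 : ℝ) ^ l * (100 * 8 ^ l / ε + 1) ^ 2 + 1 ≤ Real.exp (17 + 21 * (L / 6)) := by
    have e1 : 100 * (8 : ℝ) ^ l / ε ≤ 800 * a ^ 9 := by
      calc 100 * (8 : ℝ) ^ l / ε = 100 * 8 ^ l * (1 / ε) := by ring
        _ ≤ 100 * (8 * a ^ 3) * a ^ 6 := by gcongr
        _ = 800 * a ^ 9 := by ring
    have ha9 : 1 ≤ a ^ 9 := one_le_pow₀ ha
    have e2 : 100 * (8 : ℝ) ^ l / ε + 1 ≤ 801 * a ^ 9 := by linarith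
    have e0 : 0 ≤ 100 * (8 : ℝ) ^ l / ε + 1 := by positivity
    have ha21 : 1 ≤ a ^ 21 := one_le_pow₀ ha
    have e3 : 2 * (8 : ℝ) ^ l * (100 * 8 ^ l / ε + 1) ^ 2 + 1 ≤ 2 ^ 24 * a ^ 21 := by
      calc 2 * (8 : ℝ) ^ l * (100 * 8 ^ l / ε + 1) ^ 2 + 1
          ≤ 2 * (8 * a ^ 3) * (801 * a ^ 9) ^ 2 + a ^ 21 := by
            gcongr
        _ = 10265617 * a ^ 21 := by ring
        _ ≤ 2 ^ 24 * a ^ 21 := by
            refine mul_le_mul_of_nonneg_right (by norm_num) (by positivity)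
    have e4 : (2 : ℝ) ^ 24 ≤ Real.exp 17 := by
      have h3 : (2 : ℝ) ^ 24 = Real.exp (24 * Real.log 2) := by
        rw [show (24 : ℝ) * Real.log 2 = ((24 : ℕ) : ℝ) * Real.log 2 by norm_num,
          Real.exp_nat_mul, Real.exp_log (by norm_num)]
      rw [h3, Real.exp_le_exp]
      have := Real.log_two_lt_d9
      linarith
    calc _ ≤ 2 ^ 24 * a ^ 21 := e3
      _ ≤ Real.exp 17 * Real.exp (21 * (L / 6)) := by
          refine mul_le_mul e4 (le_of_eq ?_) (by positivity) (Real.exp_pos _).le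
          rw [hL, ← Real.exp_nat_mul]
          norm_num
      _ = _ := by rw [← Real.exp_add]
  have hbase1 : 1 ≤ 2 * (8 : ℝ) ^ l * (100 * 8 ^ l / ε + 1) ^ 2 + 1 := by
    have : 0 ≤ 2 * (8 : ℝ) ^ l * (100 * 8 ^ l / ε + 1) ^ 2 := by positivity
    linarith
  have hpow : (2 * (8 : ℝ) ^ l * (100 * 8 ^ l / ε + 1) ^ 2 + 1) ^ (300 * 2 ^ l) ≤
      Real.exp (10200 * a + 2100 * a * L) := by
    calc _ ≤ Real.exp (17 + 21 * (L / 6)) ^ (300 * 2 ^ l) :=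
          pow_le_pow_left₀ (by linarith) hbase _
      _ = Real.exp (((300 * 2 ^ l : ℕ) : ℝ) * (17 + 21 * (L / 6))) :=
          (Real.exp_nat_mul _ _).symm
      _ ≤ Real.exp (10200 * a + 2100 * a * L) := by
          rw [Real.exp_le_exp]
          push_cast
          have : 300 * (2 : ℝ) ^ l ≤ 600 * a := by linarith
          calc 300 * (2 : ℝ) ^ l * (17 + 21 * (L / 6)) ≤ 600 * a * (17 + 21 * (L / 6)) :=
                mul_le_mul_of_nonneg_right this (by linarith)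
            _ = _ := by ring
  have hmid : 16 / ε + 1 ≤ Real.exp (3 + L) := by
    have hea : 1 / ε ≤ Real.exp L := by rw [← ha6L]; exact hεa
    have h1e : 1 ≤ Real.exp L := Real.one_le_exp hL0
    have h17 : (17 : ℝ) ≤ Real.exp 3 := by
      have h := Real.exp_one_gt_d9
      have : Real.exp 3 = Real.exp 1 ^ 3 := by
        rw [← Real.exp_nat_mul]
        norm_num
      rw [this]
      calc (17 : ℝ) ≤ 2.7 ^ 3 := by norm_num
        _ ≤ Real.exp 1 ^ 3 := pow_le_pow_left₀ (by norm_num) (by linarith) 3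
    calc 16 / ε + 1 = 16 * (1 / ε) + 1 := by ring
      _ ≤ 17 * Real.exp L := by linarith
      _ ≤ Real.exp 3 * Real.exp L := by gcongr
      _ = _ := (Real.exp_add _ _).symm
  have hlast : Real.exp (Real.pi * (500000 * K ^ 2 / (ε * 32 ^ l))) ≤
      Real.exp (1570800 * K ^ 2 * a) := by
    rw [Real.exp_le_exp]
    have h32p : (0 : ℝ) < 32 ^ l := by positivity
    have e1 : K ^ 2 / (ε * 32 ^ l) ≤ K ^ 2 * a := by
      calc K ^ 2 / (ε * 32 ^ l) = K ^ 2 * ((1 / ε) / 32 ^ l) := by field_simp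
        _ = K ^ 2 * (a ^ 6 / 32 ^ l) := by rw [hεa']
        _ ≤ K ^ 2 * a := by
            refine mul_le_mul_of_nonneg_left ?_ (by positivity)
            rw [div_le_iff₀ h32p]
            calc a ^ 6 = a * a ^ 5 := by ring
              _ ≤ a * 32 ^ l := by gcongr
    have hpi : Real.pi * 500000 ≤ 1570800 := by
      have := Real.pi_lt_d4
      linarith
    calc Real.pi * (500000 * K ^ 2 / (ε * 32 ^ l)) =
          (Real.pi * 500000) * (K ^ 2 / (ε * 32 ^ l)) := by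
          ring
      _ ≤ 1570800 * (K ^ 2 * a) := by gcongr
      _ = _ := by ring
  unfold clu2
  calc _ ≤ Real.exp (10200 * a + 2100 * a * L) * Real.exp (3 + L) *
        Real.exp (1570800 * K ^ 2 * a) := by
        gcongr
    _ = _ := by
        rw [← Real.exp_add, ← Real.exp_add]
        congr 1
        ring

theorem fin (a L Λ K' W : ℝ) (ha1 : 1 ≤ a) (hLΛ : L ≤ Λ) (hΛ1 : 1 ≤ Λ) (hK'0 : 0 < K')
    (hK'Λ : K' ≤ 200 * Λ) (hW : 2 ^ 40 * a * Λ ^ 2 ≤ W) :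
    154 * Real.log 2 + ((8 * Real.log 2 + 4 / 5 * W) + 6 * L) +
      (10200 * a + 2100 * a * L + 3 + L + 1570800 * K' ^ 2 * a) < W := by
  have hlog2' : Real.log 2 < 0.6931471808 := Real.log_two_lt_d9
  have ha0 : 0 < a := by linarith
  have hΛ2 : Λ ≤ Λ ^ 2 := by rw [sq]; exact le_mul_of_one_le_left (by linarith) hΛ1
  have hΛ2' : 1 ≤ Λ ^ 2 := by linarith
  obtain ⟨Z, hZ⟩ : ∃ Z : ℝ, Z = a * Λ ^ 2 := ⟨_, rfl⟩
  have hZΛ : Λ ≤ Z := by
    rw [hZ]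
    calc Λ ≤ Λ ^ 2 := hΛ2
      _ ≤ a * Λ ^ 2 := le_mul_of_one_le_left (by linarith) ha1
  have hZa : a ≤ Z := by
    rw [hZ]
    exact le_mul_of_one_le_right ha0.le hΛ2'
  have hZaL : a * L ≤ Z := by
    rw [hZ]
    exact mul_le_mul_of_nonneg_left (by linarith) ha0.le
  have hK2 : K' ^ 2 * a ≤ 40000 * Z := by
    have h1 : K' ^ 2 ≤ (200 * Λ) ^ 2 := pow_le_pow_left₀ hK'0.le hK'Λ 2
    calc K' ^ 2 * a ≤ (200 * Λ) ^ 2 * a := mul_le_mul_of_nonneg_right h1 ha0.le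
      _ = 40000 * Z := by rw [hZ]; ring
  have hWZ : 2 ^ 40 * Z ≤ W := by
    rw [hZ]
    linarith
  norm_num at hWZ
  have e1 : 2100 * a * L ≤ 2100 * Z := by linarith
  have e2 : 1570800 * K' ^ 2 * a ≤ 62832000000 * Z := by linarith
  linarith

end NumAux

theorem num : S_num6 := by
  refine ⟨2 ^ 40, by norm_num, ?_⟩
  intro κ w ε hκ hκw hε hε2 hw
  have hκ1 : (1 : ℝ) ≤ κ := by exact_mod_cast hκ
  have hκ0 : (0 : ℝ) < κ := by linarith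
  have hw0 : (0 : ℝ) < w := lt_of_lt_of_le (Real.exp_pos _) hw
  have hlog2 : 0.6931471803 < Real.log 2 := Real.log_two_gt_d9
  have hlog2' : Real.log 2 < 0.6931471808 := Real.log_two_lt_d9
  obtain ⟨K, hK⟩ : ∃ K : ℝ, K = 2 ^ 16 * κ := ⟨_, rfl⟩
  have hK1 : 1 ≤ K := by rw [hK]; nlinarith
  have hK0 : 0 < K := by linarith
  obtain ⟨L, hL⟩ : ∃ L : ℝ, L = Real.log (1 / ε) := ⟨_, rfl⟩
  obtain ⟨Λ, hΛ⟩ : ∃ Λ : ℝ, Λ = Real.log (2 / ε) := ⟨_, rfl⟩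
  have hΛL : Λ = Real.log 2 + L := by
    rw [hΛ, hL, show 2 / ε = 2 * (1 / ε) by ring, Real.log_mul (by norm_num) (by positivity)]
  have hL1 : Real.log 2 ≤ L := by
    rw [hL]
    refine Real.log_le_log (by norm_num) ?_
    rw [le_div_iff₀ hε]
    linarith
  have hL0 : 0 ≤ L := by linarith
  have hΛ1 : 1 ≤ Λ := by linarith
  have hεL : 1 / ε = Real.exp L := by rw [hL, Real.exp_log (by positivity)]
  obtain ⟨a, ha⟩ : ∃ a : ℝ, a = Real.exp (L / 6) := ⟨_, rfl⟩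
  have ha1 : 1 ≤ a := by rw [ha]; exact Real.one_le_exp (by positivity)
  have ha0 : 0 < a := by linarith
  have ha6 : 1 / ε = a ^ 6 := by
    rw [hεL, ha, ← Real.exp_nat_mul]
    congr 1
    push_cast
    ring
  have haε : ε ^ (-(1 / 6 : ℝ)) = a := by
    have h1 : Real.log (1 / ε) = -Real.log ε := by rw [one_div, Real.log_inv]
    rw [ha, Real.rpow_def_of_pos hε, hL, h1]
    congr 1
    ring
  rw [haε, ← hΛ] at hw
  -- `l`
  obtain ⟨l, hl1, hl2⟩ : ∃ l : ℕ, a ≤ 2 ^ l ∧ (2 : ℝ) ^ l ≤ 2 * a := by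
    obtain ⟨n, hn1, hn2⟩ := exists_nat_pow_near ha1 (by norm_num : (1 : ℝ) < 2)
    exact ⟨n + 1, hn2.le, by rw [pow_succ]; linarith⟩
  -- `r`
  obtain ⟨r, hr1, hr2⟩ : ∃ r : ℕ, 8 * K / ε ≤ 2 ^ r ∧ (2 : ℝ) ^ r ≤ 16 * K / ε := by
    have h8 : 1 ≤ 8 * K / ε := by
      rw [le_div_iff₀ hε]
      linarith
    obtain ⟨n, hn1, hn2⟩ := exists_nat_pow_near h8 (by norm_num : (1 : ℝ) < 2)
    refine ⟨n + 1, hn2.le, ?_⟩
    rw [pow_succ]
    calc (2 : ℝ) ^ n * 2 ≤ 8 * K / ε * 2 := by gcongr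
      _ = 16 * K / ε := by ring
  -- `k`
  obtain ⟨k, hk1, hk2⟩ : ∃ k : ℕ, 64 / ε ≤ 2 ^ k ∧ (2 : ℝ) ^ k ≤ 128 / ε := by
    have h8 : 1 ≤ 64 / ε := by
      rw [le_div_iff₀ hε]
      linarith
    obtain ⟨n, hn1, hn2⟩ := exists_nat_pow_near h8 (by norm_num : (1 : ℝ) < 2)
    refine ⟨n + 1, hn2.le, ?_⟩
    rw [pow_succ]
    calc (2 : ℝ) ^ n * 2 ≤ 64 / ε * 2 := by gcongr
      _ = 128 / ε := by ring
  have hkΛ : (k : ℝ) ≤ 6 * Λ := by
    have h1 : (k : ℝ) * Real.log 2 ≤ Real.log (128 / ε) := by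
      rw [← Real.log_pow]
      exact Real.log_le_log (by positivity) hk2
    have h2 : Real.log (128 / ε) = 7 * Real.log 2 + L := by
      rw [hL, show 128 / ε = 2 ^ 7 * (1 / ε) by ring, Real.log_mul (by norm_num) (by positivity),
        Real.log_pow]
      norm_num
    rw [h2] at h1
    nlinarith
  -- `q`
  obtain ⟨q, hq1, hq2⟩ : ∃ q : ℕ, 1 + 4 * k ≤ 2 ^ q ∧ 2 ^ q ≤ 2 * (1 + 4 * k) := by
    have h8 : (1 : ℝ) ≤ 1 + 4 * k := by
      have : (0 : ℝ) ≤ k := Nat.cast_nonneg k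
      linarith
    obtain ⟨n, hn1, hn2⟩ := exists_nat_pow_near h8 (by norm_num : (1 : ℝ) < 2)
    refine ⟨n + 1, by exact_mod_cast hn2.le, ?_⟩
    have h9 : 2 ^ n ≤ 1 + 4 * k := by exact_mod_cast hn1
    rw [pow_succ]
    omega
  obtain ⟨K', hK'⟩ : ∃ K' : ℝ, K' = 2 ^ (q + 2) := ⟨_, rfl⟩
  have hK'0 : 0 < K' := by rw [hK']; positivity
  have hK'Λ : K' ≤ 200 * Λ := by
    have h1 : (2 : ℝ) ^ q ≤ 2 * (1 + 4 * k) := by exact_mod_cast hq2
    rw [hK', pow_add]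
    linarith
  -- `D`
  obtain ⟨lam, hlam⟩ : ∃ lam : ℝ, lam = ε ^ 2 / (768 * K) := ⟨_, rfl⟩
  have hlam0 : 0 < lam := by rw [hlam]; positivity
  obtain ⟨c, hc⟩ : ∃ c : ℝ, c = lam ^ 3 / (32 * K ^ 2) := ⟨_, rfl⟩
  have hc0 : 0 < c := by rw [hc]; positivity
  obtain ⟨Y, hY⟩ : ∃ Y : ℝ, Y = κ ^ 7 / ε ^ 6 := ⟨_, rfl⟩
  have hY1 : 1 ≤ Y := by
    rw [hY, le_div_iff₀ (by positivity)]
    have h1 : (1 : ℝ) ≤ κ ^ 7 := one_le_pow₀ hκ1
    have h2 : ε ^ 6 ≤ 1 := pow_le_one₀ hε.le (by linarith)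
    linarith
  have hDY : 2 ^ 17 * (κ : ℝ) ^ 2 / c ≤ 2 ^ 131 * Y := by
    have e : 2 ^ 17 * (κ : ℝ) ^ 2 / c = 2 ^ 17 * 768 ^ 3 * 32 * 2 ^ 80 * Y := by
      rw [hc, hlam, hK, hY]
      field_simp
    rw [e]
    refine mul_le_mul_of_nonneg_right (by norm_num) (by linarith)
  refine ⟨l, ⌈2 ^ 17 * (κ : ℝ) ^ 2 / c⌉₊, r, k, q, lam, c, ?_, hlam0.le, hc0, ?_, ?_, ?_, ?_, hk1,
    hq1, ?_⟩
  · exact Nat.one_le_ceil_iff.2 (by positivity)
  · rw [← hK]; exact hr1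
  · calc 12 * (2 : ℝ) ^ r * lam ≤ 12 * (16 * K / ε) * lam := by
          gcongr
      _ = ε / 4 := by
          rw [hlam]
          field_simp
          ring
  · rw [← hK, hc]
    refine le_of_eq ?_
    field_simp
  · have hD : 2 ^ 17 * (κ : ℝ) ^ 2 / c ≤ (⌈2 ^ 17 * (κ : ℝ) ^ 2 / c⌉₊ : ℝ) := Nat.le_ceil _
    rwa [div_le_iff₀ hc0] at hD
  · have hD : (⌈2 ^ 17 * (κ : ℝ) ^ 2 / c⌉₊ : ℝ) < 2 ^ 131 * Y + 1 :=
      (Nat.ceil_lt_add_one (by positivity)).trans_le (by linarith)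
    have hclu := NumAux.clu_le l K' ε a L hε ha1 ha ha6 hl1 hl2 hL0
    have hclu0 : 0 < clu2 l K' ε := by
      unfold clu2
      positivity
    rw [← hK']
    -- the first factor
    have h12 : 12 * 2 ^ 17 * (κ : ℝ) * (2 * (⌈2 ^ 17 * (κ : ℝ) ^ 2 / c⌉₊ : ℝ) + 1) ≤
        2 ^ 154 * (κ ^ 8 / ε ^ 6) := by
      have e1 : 2 * (⌈2 ^ 17 * (κ : ℝ) ^ 2 / c⌉₊ : ℝ) + 1 ≤ 2 ^ 133 * Y := by
        nlinarith
      calc 12 * 2 ^ 17 * (κ : ℝ) * (2 * (⌈2 ^ 17 * (κ : ℝ) ^ 2 / c⌉₊ : ℝ) + 1)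
          ≤ 12 * 2 ^ 17 * (κ : ℝ) * (2 ^ 133 * Y) := by gcongr
        _ = 12 * 2 ^ 150 * (κ ^ 8 / ε ^ 6) := by rw [hY]; ring
        _ ≤ 2 ^ 154 * (κ ^ 8 / ε ^ 6) :=
            mul_le_mul_of_nonneg_right (by norm_num) (by positivity)
    obtain ⟨W, hW⟩ : ∃ W : ℝ, W = Real.log w := ⟨_, rfl⟩
    have hwW : (w : ℝ) = Real.exp W := by rw [hW, Real.exp_log hw0]
    have hWl : 2 ^ 40 * a * Λ ^ 2 ≤ W := by
      rw [hwW, Real.exp_le_exp] at hw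
      exact hw
    have hκW : Real.log κ ≤ Real.log 2 + W / 10 := by
      have h1 := Real.log_le_log (by positivity) hκw
      rw [Real.log_pow, Real.log_mul (by norm_num) hw0.ne', Real.log_pow, ← hW] at h1
      push_cast at h1
      linarith
    have hκ8 : (κ : ℝ) ^ 8 ≤ Real.exp (8 * Real.log 2 + 4 / 5 * W) := by
      have e1 : (κ : ℝ) ^ 8 = Real.exp (8 * Real.log κ) := by
        rw [show (8 : ℝ) * Real.log κ = ((8 : ℕ) : ℝ) * Real.log κ by norm_num,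
          Real.exp_nat_mul, Real.exp_log hκ0]
      rw [e1, Real.exp_le_exp]
      linarith
    have hε6 : 1 / ε ^ 6 = Real.exp (6 * L) := by
      rw [show (6 : ℝ) * L = ((6 : ℕ) : ℝ) * L by norm_num, Real.exp_nat_mul, ← hεL, one_div,
        one_div, inv_pow]
    have h154 : (2 : ℝ) ^ 154 = Real.exp (154 * Real.log 2) := by
      rw [show (154 : ℝ) * Real.log 2 = ((154 : ℕ) : ℝ) * Real.log 2 by norm_num,
        Real.exp_nat_mul, Real.exp_log (by norm_num)]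
    have hfirst : 2 ^ 154 * ((κ : ℝ) ^ 8 / ε ^ 6) ≤
        Real.exp (154 * Real.log 2 + ((8 * Real.log 2 + 4 / 5 * W) + 6 * L)) := by
      rw [Real.exp_add, Real.exp_add (8 * Real.log 2 + 4 / 5 * W), ← h154, ← hε6]
      refine mul_le_mul_of_nonneg_left ?_ (by positivity)
      rw [div_eq_mul_one_div]
      exact mul_le_mul_of_nonneg_right hκ8 (by positivity)
    calc 12 * 2 ^ 17 * (κ : ℝ) * (2 * (⌈2 ^ 17 * (κ : ℝ) ^ 2 / c⌉₊ : ℝ) + 1) * clu2 l K' ε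
        ≤ Real.exp (154 * Real.log 2 + ((8 * Real.log 2 + 4 / 5 * W) + 6 * L)) *
          Real.exp (10200 * a + 2100 * a * L + 3 + L + 1570800 * K' ^ 2 * a) :=
          mul_le_mul (h12.trans hfirst) hclu hclu0.le (Real.exp_pos _).le
      _ = Real.exp (154 * Real.log 2 + ((8 * Real.log 2 + 4 / 5 * W) + 6 * L) +
            (10200 * a + 2100 * a * L + 3 + L + 1570800 * K' ^ 2 * a)) :=
          (Real.exp_add _ _).symm
      _ < Real.exp W := by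
          rw [Real.exp_lt_exp]
          exact NumAux.fin a L Λ K' W ha1 (by linarith) hΛ1 hK'0 hK'Λ hWl
      _ = w := hwW.symm

end Pool.Agent.H36.LX.T
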