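import Pool.Agent.H36.LX.Stm
import Pool.Agent.H34.BL.Win

/-! LX-WIN (helper1): the normalised window of a law -/

set_option autoImplicit false

open Finset Filter Topology
open scoped Classical

namespace Pool.Agent.H36.LX.T

open Pool.Agent.H36.LC Pool.Agent.H36.BK Pool.Agent.H36.BK.LW Pool.Agent.H13R3.WB
  Pool.Agent.H931R3.Bal Pool.Agent.H36.LX Pool.Agent.H34.BL.Win

namespace WinAux

lemma winD_nonneg (o L : ℕ) (p : ℕ → ℝ) (hp : ∀ s, 0 ≤ p s) (s : ℕ) : 0 ≤ winD o L p s := by
  unfold winD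
  split_ifs
  · exact div_nonneg (hp _) (sum_nonneg fun _ _ => hp _)
  · exact le_rfl

lemma winD_unim (o L : ℕ) (hL : 1 ≤ L) (p : ℕ → ℝ) (hp : ∀ s, 0 ≤ p s) (hu : Unim p) :
    Unim (winD o L p) := by
  have hm : 0 ≤ ∑ t ∈ range L, p (o + t) := sum_nonneg fun _ _ => hp _
  obtain ⟨m₀, h1, h2⟩ := hu
  refine ⟨min (m₀ - o) (L - 1), ?_, ?_⟩
  · intro i j hij hj
    have hjL : j < L := by omega
    have hiL : i < L := by omega
    unfold winD
    rw [if_pos hjL, if_pos hiL]
    refine div_le_div_of_nonneg_right ?_ hm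
    rcases Nat.eq_zero_or_pos j with h0 | h0
    · have : i = j := by omega
      rw [this]
    · exact h1 _ _ (by omega) (by omega)
  · intro i j hi hij
    by_cases hjL : j < L
    · have hiL : i < L := by omega
      unfold winD
      rw [if_pos hjL, if_pos hiL]
      refine div_le_div_of_nonneg_right ?_ hm
      by_cases h3 : m₀ ≤ o + i
      · exact h2 _ _ h3 (by omega)
      · have : i = j := by omega
        rw [this]
    · have : winD o L p j = 0 := by
        unfold winD
        rw [if_neg hjL]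
      rw [this]
      exact winD_nonneg o L p hp i

lemma winD_lcc (o L : ℕ) (p : ℕ → ℝ) (hp : ∀ s, 0 ≤ p s) (hl : LCc p) : LCc (winD o L p) := by
  intro a b c d hab hac hs
  by_cases hd : d < L
  · have ha : a < L := by omega
    have hb : b < L := by omega
    have hc : c < L := by omega
    unfold winD
    rw [if_pos ha, if_pos hb, if_pos hc, if_pos hd, div_mul_div_comm, div_mul_div_comm]
    refine div_le_div_of_nonneg_right ?_ (mul_self_nonneg _)
    exact hl (o + a) (o + b) (o + c) (o + d) (by omega) (by omega) (by omega)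
  · have : winD o L p d = 0 := by
      unfold winD
      rw [if_neg hd]
    rw [this, mul_zero]
    exact mul_nonneg (winD_nonneg o L p hp b) (winD_nonneg o L p hp c)

/-- the window -/
lemma win_diff (M o L : ℕ) (p q : ℕ → ℝ) (θ : ℝ)
    (hp : ∀ s, 0 ≤ p s) (hq : ∀ s, 0 ≤ q s) (hpM : ∀ s, M ≤ s → p s = 0)
    (hqM : ∀ s, M ≤ s → q s = 0) (hp1 : ∑ s ∈ range M, p s = 1) (hq1 : ∑ s ∈ range M, q s = 1)
    (hpw : 1 - θ ≤ ∑ s ∈ range L, p (o + s)) (hqw : 1 - θ ≤ ∑ s ∈ range L, q (o + s)) :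
    |om M p q - BB L (fun s => p (o + s)) (fun s => q (o + s))| ≤ 2 * θ := by
  have hpm := mass_le M o L p hp hpM hp1
  have hqm := mass_le M o L q hq hqM hq1
  obtain ⟨N, hN⟩ : ∃ N, N = M + o + L := ⟨_, rfl⟩
  rw [om_eq, ← BB_ext M N (by omega) p q hpM hqM]
  -- the parts in the window
  have hI : BB N (fun s => if o ≤ s ∧ s < o + L then p s else 0)
      (fun s => if o ≤ s ∧ s < o + L then q s else 0) =
      BB L (fun s => p (o + s)) (fun s => q (o + s)) := by
    unfold BB
    have e0 : ∑ s ∈ range L, ∑ t ∈ range L, kk s t * (p (o + s) * q (o + t)) =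
        ∑ s ∈ range L, (fun s => ∑ t ∈ range L, kk s (o + t) * (p s * q (o + t))) (o + s) := by
      refine sum_congr rfl fun s _ => sum_congr rfl fun t _ => ?_
      rw [kk_add]
    refine Eq.trans ?_ e0.symm
    rw [← window_sum N o L (by omega) (fun s => ∑ t ∈ range L, kk s (o + t) * (p s * q (o + t)))]
    refine sum_congr rfl fun s _ => ?_
    by_cases hs : o ≤ s ∧ s < o + L
    · rw [if_pos hs, ← window_sum N o L (by omega) (fun t => kk s t * (p s * q t))]
      refine sum_congr rfl fun t _ => ?_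
      by_cases ht : o ≤ t ∧ t < o + L
      · simp only [if_pos hs, if_pos ht]
      · simp only [if_pos hs, if_neg ht, mul_zero]
    · rw [if_neg hs]
      refine sum_eq_zero fun t _ => ?_
      simp only [if_neg hs, zero_mul, mul_zero]
  have d1 := BB_diff N p q (fun s => if o ≤ s ∧ s < o + L then p s else 0)
      (fun s => if o ≤ s ∧ s < o + L then q s else 0)
  have ab : ∀ r : ℕ → ℝ, (∀ s, 0 ≤ r s) → ∀ n : ℕ, ∑ s ∈ range n, |r s| = ∑ s ∈ range n, r s :=
    fun r hr n => sum_congr rfl fun s _ => abs_of_nonneg (hr s)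
  have cut : ∀ r : ℕ → ℝ, (∀ s, 0 ≤ r s) → (∀ s, M ≤ s → r s = 0) → ∑ s ∈ range M, r s = 1 →
      ∑ s ∈ range N, |r s - (if o ≤ s ∧ s < o + L then r s else 0)| =
        1 - ∑ s ∈ range L, r (o + s) := by
    intro r hr hrM hr1
    rw [← hr1, ← sum_ext M N (by omega) r hrM, ← window_sum N o L (by omega) r,
      ← sum_sub_distrib]
    refine sum_congr rfl fun s _ => ?_
    apply abs_of_nonneg
    split_ifs
    · simp
    · simpa using hr s
  rw [cut p hp hpM hp1, cut q hq hqM hq1, ab q hq, sum_ext M N (by omega) q hqM, hq1, hI] at d1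
  have e1 : ∑ s ∈ range N, |if o ≤ s ∧ s < o + L then p s else 0| =
      ∑ s ∈ range L, p (o + s) := by
    rw [← window_sum N o L (by omega) p]
    refine sum_congr rfl fun s _ => ?_
    split_ifs
    · exact abs_of_nonneg (hp s)
    · simp
  rw [e1] at d1
  obtain ⟨a, ha⟩ : ∃ a, a = ∑ s ∈ range L, p (o + s) := ⟨_, rfl⟩
  obtain ⟨b, hb⟩ : ∃ b, b = ∑ s ∈ range L, q (o + s) := ⟨_, rfl⟩
  rw [← ha, ← hb] at d1
  rw [← ha] at hpm hpw
  rw [← hb] at hqm hqw
  have d3 : a * (1 - b) ≤ 1 - b := by nlinarith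
  linarith

lemma BB_winD (o L : ℕ) (p q : ℕ → ℝ) : BB L (winD o L p) (winD o L q) =
    BB L (fun s => p (o + s)) (fun s => q (o + s)) /
      ((∑ s ∈ range L, p (o + s)) * ∑ s ∈ range L, q (o + s)) := by
  unfold BB
  rw [sum_div]
  refine sum_congr rfl fun s hs => ?_
  rw [sum_div]
  refine sum_congr rfl fun t ht => ?_
  unfold winD
  rw [if_pos (mem_range.1 hs), if_pos (mem_range.1 ht), div_mul_div_comm, ← mul_div_assoc]

end WinAux

open WinAux in
theorem win : S_winD := by
  intro M o L p q θ K hM hL hθ hθ1 hp hq hpM hqM hp1 hq1 hpu hpl hpw hqw hpK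
  have hpm := mass_le M o L p hp hpM hp1
  have hqm := mass_le M o L q hq hqM hq1
  have hL' : (0 : ℝ) < L := by exact_mod_cast hL
  have hd := win_diff M o L p q θ hp hq hpM hqM hp1 hq1 hpw hqw
  have ha : 1 / 2 ≤ ∑ s ∈ range L, p (o + s) := by linarith
  have hb : 1 / 2 ≤ ∑ s ∈ range L, q (o + s) := by linarith
  refine ⟨⟨winD_nonneg o L p hp, ?_, ?_, winD_unim o L hL p hp hpu, winD_lcc o L p hp hpl⟩, ?_⟩
  · have h1 : ∀ s ∈ range L, winD o L p s = p (o + s) / ∑ t ∈ range L, p (o + t) := by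
      intro s hs
      unfold winD
      rw [if_pos (mem_range.1 hs)]
    rw [sum_congr rfl h1, ← sum_div, div_self]
    linarith
  · intro s
    unfold winD
    split_ifs
    · have h1 : p (o + s) ≤ K / L := (le_div_iff₀ hL').2 (hpK _)
      calc p (o + s) / ∑ t ∈ range L, p (o + t) ≤ p (o + s) / (1 / 2) := by
            exact div_le_div_of_nonneg_left (hp _) (by norm_num) ha
        _ = 2 * p (o + s) := by ring
        _ ≤ 2 * (K / L) := by linarith
        _ = 2 * K / L := by ring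
    · have h1 := hpK 0
      have h2 := mul_nonneg (hp 0) hL'.le
      exact div_nonneg (by linarith) hL'.le
  · rw [om_eq L, BB_winD]
    obtain ⟨B, hB⟩ : ∃ B, B = BB L (fun s => p (o + s)) (fun s => q (o + s)) := ⟨_, rfl⟩
    obtain ⟨a, ha'⟩ : ∃ a, a = ∑ s ∈ range L, p (o + s) := ⟨_, rfl⟩
    obtain ⟨b, hb'⟩ : ∃ b, b = ∑ s ∈ range L, q (o + s) := ⟨_, rfl⟩
    rw [← hB] at hd
    rw [← hB, ← ha', ← hb']
    rw [← ha'] at ha hpm
    rw [← hb'] at hb hqm
    have hab0 : 0 < a * b := mul_pos (by linarith) (by linarith)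
    have hab1 : a * b ≤ 1 := by nlinarith
    rw [abs_div, abs_of_pos hab0]
    have h1 : |B| ≤ |B| / (a * b) := by
      rw [le_div_iff₀ hab0]
      have := abs_nonneg B
      nlinarith
    have h2 : |om M p q| - |B| ≤ |om M p q - B| := abs_sub_abs_le_abs_sub _ _
    linarith

end Pool.Agent.H36.LX.T
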