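import Pool.Agent.H36.LX.Stm

/-! # LX-CORE: the generic core (adapted from `Pool/Agent/H96/BK/Core.lean` of helper96) -/

set_option autoImplicit false

open Finset Filter Topology
open scoped Classical

namespace Pool.Agent.H36.LX.T

open Pool.Agent.H36.LX Pool.Agent.H36.LC Pool.Agent.H36.BK Pool.Agent.H36.BK.LW Pool.Agent.H13R3.WB
  Pool.Agent.H931R3.Bal
open Pool.Agent.H36.BK.CoreAux

namespace CoreX

/-- the mass of the window -/
lemma window_mass (N : ℕ → ℕ) (M m r k o L T : ℕ) (hT : ∑ j ∈ range M, N j = T) (hT0 : 0 < T)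
    (htail : 2 ^ k * ∑ j ∈ (range M).filter (fun j => m + k * r ≤ j ∨ j + k * r ≤ m), N j ≤ 2 * T)
    (hwin : ∀ j, ¬ (m + k * r ≤ j ∨ j + k * r ≤ m) → o ≤ j ∧ j < o + L) :
    1 - 2 / 2 ^ k ≤ ∑ s ∈ range L, (N (o + s) : ℝ) / T := by
  have hT0' : (0 : ℝ) < T := by exact_mod_cast hT0
  obtain ⟨W, hW⟩ : ∃ W, W = ∑ s ∈ range L, N (o + s) := ⟨_, rfl⟩
  obtain ⟨Z, hZ⟩ : ∃ Z, Z = ∑ j ∈ (range M).filter (fun j => m + k * r ≤ j ∨ j + k * r ≤ m), N j :=
    ⟨_, rfl⟩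
  rw [← hZ] at htail
  have h1 : T ≤ Z + W := by
    rw [← hT, ← sum_filter_add_sum_filter_not (range M)
      (fun j => m + k * r ≤ j ∨ j + k * r ≤ m), ← hZ]
    apply Nat.add_le_add_left
    have h2 : W = ∑ j ∈ Ico o (o + L), N j := by
      rw [hW, sum_Ico_eq_sum_range]
      congr 2
      omega
    rw [h2]
    apply sum_le_sum_of_subset
    intro j hj
    rw [mem_filter] at hj
    exact mem_Ico.2 (hwin j hj.2)
  have h1' : (T : ℝ) ≤ Z + W := by exact_mod_cast h1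
  have h2' : (2 : ℝ) ^ k * Z ≤ 2 * T := by exact_mod_cast htail
  have h3 : (0 : ℝ) < 2 ^ k := by positivity
  rw [← sum_div, le_div_iff₀ hT0']
  have h4 : (W : ℝ) = ∑ s ∈ range L, (N (o + s) : ℝ) := by rw [hW]; push_cast; rfl
  rw [← h4]
  have h5 : (Z : ℝ) ≤ 2 / 2 ^ k * T := by
    rw [div_mul_eq_mul_div, le_div_iff₀ h3]
    linarith
  linarith

variable {α : Type} [Fintype α] [PartialOrder α]

lemma Nx_zero {M : ℕ} {x : α} {j : ℕ} (hj : M ≤ j) : Nx α M x j = 0 := by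
  rw [Nx, Pool.Agent.H36.BK.cnt]
  refine Finset.card_eq_zero.2 (Finset.eq_empty_of_forall_notMem fun f hf => ?_)
  simp only [Finset.mem_filter] at hf
  obtain ⟨h1, h2⟩ := hf
  have := (mem_Om.1 h1).1 x
  omega

lemma exists_mode (huni : S_uni) (M : ℕ) (x : α) : ∃ m, ∀ j, Nx α M x j ≤ Nx α M x m := by
  obtain ⟨m, h1, h2⟩ := huni α M x
  refine ⟨m, fun j => ?_⟩
  rcases le_total j m with h | h
  · have h3 : (Nx α M x j : ℝ) ≤ Nx α M x m := h1 j m h le_rfl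
    exact_mod_cast h3
  · have h3 : (Nx α M x j : ℝ) ≤ Nx α M x m := h2 m j le_rfl h
    exact_mod_cast h3

end CoreX

open CoreX in
/-- LX-CORE -/
theorem core : Pool.Agent.H34.BL.S_dens1 → Pool.Agent.H34.BL.S_tail1 → Pool.Agent.H34.BL.S_grp1 →
    S_winD → S_corex := by
  intro hdens htail hgrp hwinD α _ _ κ A ε lam c J₀ D r k q hκ hA hAne hcard hε hε1 hD
    hlam hc0 hr hrl hlam3 hDc hk hq hprob
  have hfour : S_four := H82.BK.four
  have huni : S_uni := H82.BK.uni H82.BK.four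
  have hfkg : S_fkg := H82.BK.fkg
  have hcov : S_cov := cov (var iid img)
  have hind : S_ind := ind
  have hpair : S_pair := pair H82.BK.fkg (near H82.BK.hmax)
  have hlim : S_lim := lim
  obtain ⟨K, hK⟩ : ∃ K : ℝ, K = 2 ^ 16 * (κ : ℝ) := ⟨_, rfl⟩
  rw [← hK] at hr hlam3
  have hκ0 : (0 : ℝ) < κ := by exact_mod_cast hκ
  have hκ1 : (1 : ℝ) ≤ κ := by exact_mod_cast hκ
  have hK1 : 1 ≤ K := by rw [hK]; linarith
  have hD0 : (0 : ℝ) < D := by exact_mod_cast hD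
  obtain ⟨I, hI⟩ : ∃ I : ℕ, I = Nat.log 2 (2 ^ 16 * κ) := ⟨_, rfl⟩
  have hI2 : 2 ^ (I + 1) ≤ 2 ^ 17 * κ := by
    have h1 : 2 ^ I ≤ 2 ^ 16 * κ := by
      rw [hI]
      exact Nat.pow_log_le_self 2 (by positivity)
    rw [pow_succ]
    omega
  -- the choice of `J₁`
  have hlim' : ∀ᶠ M : ℕ in atTop, ∀ x ∈ A, ∀ y ∈ A, x ≠ y → 2 * ε <
      |((cnt α M (fun f => f x < f y) : ℝ) - cnt α M (fun f => f y < f x)) / (Om α M).card| := by
    rw [Filter.eventually_all_finset]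
    intro x hx
    rw [Filter.eventually_all_finset]
    intro y hy
    by_cases hxy : x = y
    · exact Eventually.of_forall fun M h => absurd hxy h
    · have h1 := (hlim α x y hxy).abs.eventually_const_lt (hprob x hx y hy hxy)
      filter_upwards [h1] with M hM _
      exact hM
  have hev := (hcov α).and ((hdens α κ A hA hAne hcard).and (hlim'.and (eventually_ge_atTop 2)))
  have h2J : Tendsto (fun J : ℕ => 2 ^ J) atTop atTop :=
    tendsto_pow_atTop_atTop_of_one_lt (by norm_num)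
  obtain ⟨J₁, ⟨hcovJ, hdensJ, hlimJ, hM2⟩, hJl, hJr⟩ := ((h2J.eventually hev).and
    ((eventually_ge_atTop (J₀ + I)).and (eventually_ge_atTop r))).exists
  obtain ⟨M, hMJ⟩ : ∃ M : ℕ, M = 2 ^ J₁ := ⟨_, rfl⟩
  rw [← hMJ] at hcovJ hdensJ hlimJ hM2
  have hM0n : 0 < M := by omega
  have hM0 : (0 : ℝ) < M := by exact_mod_cast hM0n
  have hMc : (M : ℝ) = 2 ^ J₁ := by rw [hMJ]; push_cast; rfl
  obtain ⟨T, hT⟩ : ∃ T, T = (Om α M).card := ⟨_, rfl⟩
  have hT0 : 0 < T := by rw [hT]; exact Om_pos (by omega)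
  have hT0' : (0 : ℝ) < T := by exact_mod_cast hT0
  obtain ⟨G, hG⟩ : ∃ G : Finset α, G = A.filter fun x => ∀ j, Nx α M x j * M ≤
    2 ^ 16 * κ * (Om α M).card := ⟨_, rfl⟩
  rw [← hG] at hdensJ
  have hGA : ∀ x ∈ G, x ∈ A := fun x hx => by rw [hG] at hx; exact (mem_filter.1 hx).1
  have hGN : ∀ x ∈ G, ∀ j, Nx α M x j * M ≤ 2 ^ 16 * κ * T := fun x hx => by
    rw [hG] at hx
    rw [hT]
    exact (mem_filter.1 hx).2
  have hpmK : ∀ x ∈ G, ∀ j, pm α M x j ≤ K / M := by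
    intro x hx j
    have h1 := hGN x hx j
    have h2 : (Nx α M x j : ℝ) * M ≤ K * T := by rw [hK]; exact_mod_cast h1
    rw [pm, ← hT, div_le_div_iff₀ hT0' hM0]
    exact h2
  -- the modes
  choose m hm using fun x : α => exists_mode huni M x
  have hsumN : ∀ x : α, ∑ j ∈ range M, Nx α M x j = T := fun x => by rw [hT]; exact sum_Nx M x
  have hTN : ∀ x : α, T ≤ Nx α M x (m x) * M := by
    intro x
    rw [← hsumN x]
    calc ∑ j ∈ range M, Nx α M x j ≤ ∑ _j ∈ range M, Nx α M x (m x) :=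
          sum_le_sum fun j _ => hm x j
      _ = Nx α M x (m x) * M := by rw [sum_const, card_range, smul_eq_mul, mul_comm]
  have hNm : ∀ x : α, 0 < Nx α M x (m x) := by
    intro x
    by_contra h
    have h0 : Nx α M x (m x) = 0 := by omega
    have := hTN x
    rw [h0, zero_mul] at this
    omega
  have hmM : ∀ x : α, m x < M := by
    intro x
    by_contra h
    have := hNm x
    rw [Nx_zero (by omega : M ≤ m x)] at this
    exact lt_irrefl _ this
  -- the classes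
  obtain ⟨Q, hQ⟩ : ∃ Q : α → ℕ, ∀ x, Q x = Nx α M x (m x) * M / T := ⟨_, fun _ => rfl⟩
  have hQ1 : ∀ x, 1 ≤ Q x := by
    intro x
    rw [hQ x, Nat.le_div_iff_mul_le hT0, one_mul]
    exact hTN x
  have hQK : ∀ x ∈ G, Q x ≤ 2 ^ 16 * κ := by
    intro x hx
    rw [hQ x]
    exact Nat.div_le_of_le_mul (by rw [mul_comm T]; exact hGN x hx (m x))
  obtain ⟨i, hi⟩ : ∃ i : α → ℕ, ∀ x, i x = Nat.log 2 (Q x) := ⟨_, fun _ => rfl⟩
  have hiI : ∀ x ∈ G, i x ≤ I := by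
    intro x hx
    rw [hi x, hI]
    exact Nat.log_mono_right (hQK x hx)
  have hiT : ∀ x, 2 ^ i x * T ≤ Nx α M x (m x) * M := by
    intro x
    have h1 : 2 ^ i x ≤ Q x := by
      rw [hi x]
      exact Nat.pow_log_le_self 2 (by have := hQ1 x; omega)
    rw [hQ x, Nat.le_div_iff_mul_le hT0] at h1
    exact h1
  have hiT2 : ∀ x, Nx α M x (m x) * M ≤ 2 ^ (i x + 1) * T := by
    intro x
    have h1 : Q x < 2 ^ (i x + 1) := by
      rw [hi x]
      exact Nat.lt_pow_succ_log_self (by norm_num) _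
    rw [hQ x, Nat.div_lt_iff_lt_mul hT0] at h1
    exact h1.le
  have hv : ∀ x ∈ G, m x / 2 ^ (J₁ - i x) < 2 ^ i x := by
    intro x hx
    rw [Nat.div_lt_iff_lt_mul (by positivity), ← pow_add]
    have h1 := hiI x hx
    rw [show i x + (J₁ - i x) = J₁ by omega, ← hMJ]
    exact hmM x
  obtain ⟨i₀, v₀, hi₀, hv₀, hGG⟩ := hgrp α G I i (fun x => m x / 2 ^ (J₁ - i x))
    (fun x hx => ⟨hiI x hx, hv x hx⟩)
  obtain ⟨G', hG'⟩ : ∃ G' : Finset α, G' = G.filter fun x => i x = i₀ ∧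
    m x / 2 ^ (J₁ - i x) = v₀ := ⟨_, rfl⟩
  rw [← hG'] at hGG
  have hG'G : ∀ x ∈ G', x ∈ G := fun x hx => by rw [hG'] at hx; exact (mem_filter.1 hx).1
  have hG'i : ∀ x ∈ G', i x = i₀ ∧ m x / 2 ^ (J₁ - i₀) = v₀ := fun x hx => by
    rw [hG'] at hx
    have h1 := (mem_filter.1 hx).2
    refine ⟨h1.1, ?_⟩
    have h2 := h1.2
    rw [h1.1] at h2
    exact h2
  have hGG' : G.card ≤ 2 ^ 17 * κ * G'.card := hGG.trans (Nat.mul_le_mul_right _ hI2)
  -- the bad pairs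
  obtain ⟨Bd, hBd⟩ : ∃ Bd : Finset (α × α), Bd = (G' ×ˢ G').filter fun u => u.1 ≠ u.2 ∧
    c * (M : ℝ) ^ 2 * (T : ℝ) ^ 2 < HH α M u.1 u.2 := ⟨_, rfl⟩
  have hBd1 : (Bd.card : ℝ) * (c * (M : ℝ) ^ 2 * (T : ℝ) ^ 2) ≤
      (Fintype.card α : ℝ) / 6 * (M : ℝ) ^ 2 * (T : ℝ) ^ 2 := by
    calc (Bd.card : ℝ) * (c * (M : ℝ) ^ 2 * (T : ℝ) ^ 2)
        = ∑ _u ∈ Bd, c * (M : ℝ) ^ 2 * (T : ℝ) ^ 2 := by rw [sum_const, nsmul_eq_mul]
      _ ≤ ∑ u ∈ Bd, HH α M u.1 u.2 := by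
          apply sum_le_sum
          intro u hu
          rw [hBd] at hu
          exact (mem_filter.1 hu).2.2.le
      _ ≤ ∑ u : α × α, HH α M u.1 u.2 :=
          sum_le_sum_of_subset_of_nonneg (subset_univ _) fun u _ _ => HH_nonneg hfkg M u.1 u.2
      _ = ∑ x : α, ∑ y : α, HH α M x y := Fintype.sum_prod_type _
      _ ≤ _ := by rw [hT]; exact hcovJ
  have hBd2 : Bd.card ≤ D * G'.card := by
    have h1 : (Bd.card : ℝ) * c ≤ (Fintype.card α : ℝ) / 6 := by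
      have h2 : 0 < (M : ℝ) ^ 2 * (T : ℝ) ^ 2 := by positivity
      refine le_of_mul_le_mul_right ?_ h2
      linarith
    have h3 : (Fintype.card α : ℝ) ≤ κ * A.card := by exact_mod_cast hcard
    have h4 : (A.card : ℝ) ≤ 6 * G.card := by exact_mod_cast hdensJ
    have h4' : (G.card : ℝ) ≤ 2 ^ 17 * κ * G'.card := by exact_mod_cast hGG'
    have h5 : (Fintype.card α : ℝ) / 6 ≤ 2 ^ 17 * (κ : ℝ) ^ 2 * G'.card := by
      have h6 : (κ : ℝ) * A.card ≤ κ * (6 * (2 ^ 17 * κ * G'.card)) := by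
        apply mul_le_mul_of_nonneg_left _ hκ0.le
        linarith
      have h7 : (κ : ℝ) * (6 * (2 ^ 17 * κ * G'.card)) = 6 * (2 ^ 17 * (κ : ℝ) ^ 2 * G'.card) := by
        ring
      linarith
    have h6 : 2 ^ 17 * (κ : ℝ) ^ 2 * G'.card ≤ D * c * G'.card :=
      mul_le_mul_of_nonneg_right hDc (Nat.cast_nonneg _)
    have h7 : (Bd.card : ℝ) ≤ D * G'.card := by
      refine le_of_mul_le_mul_right ?_ hc0
      calc (Bd.card : ℝ) * c ≤ D * c * G'.card := by linarith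
        _ = D * G'.card * c := by ring
    exact_mod_cast h7
  obtain ⟨S, hSG, hS1, hS2⟩ := hind α G' (fun x y => c * (M : ℝ) ^ 2 * (T : ℝ) ^ 2 < HH α M x y) D
    (fun x y h => by rw [HH_symm]; exact h) (by rw [hBd] at hBd2; exact hBd2)
  -- the masses
  have hunim : ∀ x, Unim (pm α M x) := by
    intro x
    obtain ⟨m, h1, h2⟩ := huni α M x
    refine ⟨m, fun i j hij hj => ?_, fun i j hi hij => ?_⟩
    · have := h1 i j hij hj
      rw [pm, pm]
      gcongr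
    · have := h2 i j hi hij
      rw [pm, pm]
      gcongr
  have hlcc : ∀ x, LCc (pm α M x) := by
    intro x a b c d hab hac habcd
    have h1 := hfour α M x a b c d hab hac habcd
    have h2 : (Nx α M x a : ℝ) * Nx α M x d ≤ Nx α M x b * Nx α M x c := by exact_mod_cast h1
    rw [pm, pm, pm, pm, div_mul_div_comm, div_mul_div_comm]
    exact div_le_div_of_nonneg_right h2 (by positivity)
  have hpm0 : ∀ x s, 0 ≤ pm α M x s := fun x s => by rw [pm]; positivity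
  have hpmM : ∀ x s, M ≤ s → pm α M x s = 0 := fun x s hs => by
    rw [pm, Nx_zero hs, Nat.cast_zero, zero_div]
  have hpm1 : ∀ x, ∑ s ∈ range M, pm α M x s = 1 := fun x => sum_pm (by omega) x
  have hr0 : (0 : ℝ) < 2 ^ r := by positivity
  have h2K : 2 * K / 2 ^ r ≤ ε / 4 := by
    rw [div_le_iff₀ hε] at hr
    rw [div_le_iff₀ hr0]
    linarith
  -- the window
  have hi₀J : i₀ ≤ J₁ := by omega
  obtain ⟨B, hB⟩ : ∃ B : ℕ, B = 2 ^ (J₁ - i₀) := ⟨_, rfl⟩
  have hB0 : 0 < B := by rw [hB]; positivity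
  have hMB : M = 2 ^ i₀ * B := by
    rw [hMJ, hB, ← pow_add]
    congr 1
    omega
  obtain ⟨J, hJ⟩ : ∃ J : ℕ, J = J₁ - i₀ + q := ⟨_, rfl⟩
  have hLB : 2 ^ J = B * 2 ^ q := by rw [hJ, hB, pow_add]
  obtain ⟨o, ho⟩ : ∃ o : ℕ, o = v₀ * B - k * (2 * B) := ⟨_, rfl⟩
  obtain ⟨θ, hθ⟩ : ∃ θ : ℝ, θ = 2 / 2 ^ k := ⟨_, rfl⟩
  have hk0 : (0 : ℝ) < 2 ^ k := by positivity
  have hθ0 : 0 ≤ θ := by rw [hθ]; positivity
  have hθε : θ ≤ ε / 32 := by
    rw [hθ, div_le_div_iff₀ hk0 (by norm_num)]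
    rw [div_le_iff₀ hε] at hk
    linarith
  have hmass : ∀ x ∈ G', 1 - θ ≤ ∑ s ∈ range (2 ^ J), pm α M x (o + s) := by
    intro x hx
    obtain ⟨hix, hvx⟩ := hG'i x hx
    rw [hθ]
    have h2T : 2 * ∑ j ∈ range M, Nx α M x j ≤ Nx α M x (m x) * (2 * B) := by
      rw [hsumN x]
      have h1 := hiT x
      rw [hix, hMB] at h1
      have h2 : 2 ^ i₀ * T ≤ 2 ^ i₀ * (Nx α M x (m x) * B) := by
        calc 2 ^ i₀ * T ≤ Nx α M x (m x) * (2 ^ i₀ * B) := by
              have h1' := hiT x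
              rw [hix] at h1'
              calc 2 ^ i₀ * T ≤ Nx α M x (m x) * M := h1'
                _ = Nx α M x (m x) * (2 ^ i₀ * B) := by rw [← hMB]
          _ = 2 ^ i₀ * (Nx α M x (m x) * B) := by ring
      have h3 : T ≤ Nx α M x (m x) * B := Nat.le_of_mul_le_mul_left h2 (by positivity)
      calc 2 * T ≤ 2 * (Nx α M x (m x) * B) := Nat.mul_le_mul_left 2 h3
        _ = Nx α M x (m x) * (2 * B) := by ring
    have ht := htail (Nx α M x) M (m x) (2 * B) k (fun j hj => Nx_zero hj)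
      (fun a b c d => hfour α M x a b c d) (hm x) (hNm x) h2T
    rw [hsumN x] at ht
    have hw := window_mass (Nx α M x) M (m x) (2 * B) k o (2 ^ J) T (hsumN x) hT0 ht (by
      intro j hj
      push Not at hj
      obtain ⟨hj1, hj2⟩ := hj
      have hvB1 : v₀ * B ≤ m x := by
        rw [← hvx, hB]
        exact Nat.div_mul_le_self _ _
      have hvB2 : m x < (v₀ + 1) * B := by
        rw [← hvx, hB]
        exact (Nat.div_lt_iff_lt_mul (by positivity)).1 (Nat.lt_succ_self _)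
      have hL : (1 + 4 * k) * B ≤ 2 ^ J := by
        rw [hLB, mul_comm B]
        exact Nat.mul_le_mul_right B hq
      have e1 : (1 + 4 * k) * B = B + 2 * (k * (2 * B)) := by ring
      have e2 : (v₀ + 1) * B = v₀ * B + B := by ring
      rw [e1] at hL
      rw [e2] at hvB2
      rw [ho]
      constructor
      · omega
      · omega)
    refine hw.trans (le_of_eq ?_)
    refine sum_congr rfl fun s _ => ?_
    rw [pm, ← hT]
  have hbound : ∀ x ∈ G', ∀ s, pm α M x s * ((2 ^ J : ℕ) : ℝ) ≤ 2 ^ (q + 1) := by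
    intro x hx s
    obtain ⟨hix, hvx⟩ := hG'i x hx
    have h1 : Nx α M x s * M ≤ 2 ^ (i₀ + 1) * T := by
      have h2 := hiT2 x
      rw [hix] at h2
      exact (Nat.mul_le_mul_right M (hm x s)).trans h2
    have h2 : Nx α M x s * 2 ^ J ≤ 2 ^ (q + 1) * T := by
      have h3 : 2 ^ i₀ * (Nx α M x s * 2 ^ J) ≤ 2 ^ i₀ * (2 ^ (q + 1) * T) := by
        calc 2 ^ i₀ * (Nx α M x s * 2 ^ J) = Nx α M x s * (2 ^ i₀ * B) * 2 ^ q := by
              rw [hLB]; ring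
          _ = Nx α M x s * M * 2 ^ q := by rw [← hMB]
          _ ≤ 2 ^ (i₀ + 1) * T * 2 ^ q := Nat.mul_le_mul_right _ h1
          _ = 2 ^ i₀ * (2 ^ (q + 1) * T) := by ring
      exact Nat.le_of_mul_le_mul_left h3 (by positivity)
    have h3 : (Nx α M x s : ℝ) * ((2 ^ J : ℕ) : ℝ) ≤ 2 ^ (q + 1) * T := by exact_mod_cast h2
    rw [pm, ← hT, div_mul_eq_mul_div, div_le_iff₀ hT0']
    exact h3
  have hwin := fun (x : α) (hx : x ∈ G') (y : α) (hy : y ∈ G') =>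
    hwinD M o (2 ^ J) (pm α M x) (pm α M y) θ (2 ^ (q + 1)) hM0n Nat.one_le_two_pow hθ0
      (by linarith) (hpm0 x) (hpm0 y) (hpmM x) (hpmM y) (hpm1 x) (hpm1 y) (hunim x) (hlcc x)
      (hmass x hx) (hmass y hy) (hbound x hx)
  refine ⟨S, fun x => winD o (2 ^ J) (pm α M x), J, by omega, ?_, ?_, ?_⟩
  · have h2 : A.card ≤ 6 * (2 ^ 17 * κ * (2 * (2 * D + 1) * S.card)) :=
      hdensJ.trans (Nat.mul_le_mul_left 6 (hGG'.trans (Nat.mul_le_mul_left _ hS2)))
    have h3 : (A.card : ℝ) ≤ 6 * (2 ^ 17 * κ * (2 * (2 * D + 1) * S.card)) := by exact_mod_cast h2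
    refine h3.trans (le_of_eq ?_)
    ring
  · intro x hx
    obtain ⟨⟨h1, h2, h3, h4, h5⟩, _⟩ := hwin x (hSG hx) x (hSG hx)
    refine ⟨h1, h2, fun s => (h3 s).trans (le_of_eq ?_), h4, h5⟩
    push_cast
    ring
  · intro x hx y hy hxy
    have h1 := hpair α M (2 ^ r) (2 ^ (J₁ - r)) x y K c lam hM2
      (by rw [hMJ, ← pow_add]; congr 1; omega) Nat.one_le_two_pow Nat.one_le_two_pow hK1 hc0.le
      (hpmK x (hG'G x (hSG hx))) (hpmK y (hG'G y (hSG hy))) (by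
        have := hS1 x hx y hy hxy
        rw [← hT]
        exact not_lt.1 this) hlam hlam3
    have h2 := hlimJ x (hGA x (hG'G x (hSG hx))) y (hGA y (hG'G y (hSG hy))) hxy
    push_cast at h1
    obtain ⟨z, hz⟩ : ∃ z, z = ((cnt α M (fun f => f x < f y) : ℝ) - cnt α M (fun f => f y < f x)) /
      (Om α M).card := ⟨_, rfl⟩
    rw [← hz] at h1 h2
    have h3 : |z| ≤ |z - om M (pm α M x) (pm α M y)| + |om M (pm α M x) (pm α M y)| := by
      have := abs_add_le (z - om M (pm α M x) (pm α M y)) (om M (pm α M x) (pm α M y))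
      rwa [sub_add_cancel] at this
    have h4 := (hwin x (hSG hx) y (hSG hy)).2
    have h5 : ε ≤ |om M (pm α M x) (pm α M y)| - 4 * θ := by linarith
    exact h5.trans h4

/-- the same under the other name -/
theorem corex : Pool.Agent.H34.BL.S_dens1 → Pool.Agent.H34.BL.S_tail1 →
    Pool.Agent.H34.BL.S_grp1 → S_winD → S_corex := core

end Pool.Agent.H36.LX.T
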